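import Mathlib

/-!
# Circular `k`-matching-planar drawings without `k`-matching-planar triangulation
-/

namespace Pool.Agent.Results.MP_755a2c_co.CyclePowers

/-- The segments `s` and `t` between points of a circle labelled `0, 1, …, n-1` in circular order
cross: their four endpoints are distinct and alternate. -/
def Crosses {n : ℕ} (s t : Sym2 (Fin n)) : Prop :=
  ∃ a b c d : Fin n, a < b ∧ b < c ∧ c < d ∧
    ((s = s(a, c) ∧ t = s(b, d)) ∨ (s = s(b, d) ∧ t = s(a, c)))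

/-- The set of edges of `G` crossing `t` contains `m` pairwise independent edges. -/
def PiercedBy {n : ℕ} (G : SimpleGraph (Fin n)) (t : Sym2 (Fin n)) (m : ℕ) : Prop :=
  ∃ M : Finset (Sym2 (Fin n)), M.card = m ∧ (∀ e ∈ M, e ∈ G.edgeSet ∧ Crosses e t) ∧
    ∀ e ∈ M, ∀ e' ∈ M, e ≠ e' → ∀ v : Fin n, ¬ (v ∈ e ∧ v ∈ e')

/-- The circular drawing of `G` with vertex `i` at the `i`-th point is `k`-matching-planar. -/
def MatchingPlanar {n : ℕ} (G : SimpleGraph (Fin n)) (k : ℕ) : Prop :=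
  ∀ e ∈ G.edgeSet, ¬ PiercedBy G e (k + 1)

/-- The sides of the outer cycle. -/
def IsSide {n : ℕ} (s : Sym2 (Fin n)) : Prop :=
  ∃ i j : Fin n, s = s(i, j) ∧ (i.1 + 1 = j.1 ∨ (i.1 = 0 ∧ j.1 + 1 = n)) ∧ i ≠ j

/-- The diagonals of the outer cycle. -/
def IsDiagonal {n : ℕ} (s : Sym2 (Fin n)) : Prop := ¬ s.IsDiag ∧ ¬ IsSide s

/-- `T` is a triangulation of the outer cycle: all sides together with an inclusion-maximal set of
pairwise non-crossing diagonals. -/
def IsTriangulation {n : ℕ} (T : Set (Sym2 (Fin n))) : Prop :=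
  ∃ D : Set (Sym2 (Fin n)),
    Maximal (fun D : Set (Sym2 (Fin n)) =>
      (∀ s ∈ D, IsDiagonal s) ∧ ∀ s ∈ D, ∀ t ∈ D, ¬ Crosses s t) D ∧
    T = {s | IsSide s} ∪ D

/-! ### Crossing in coordinates -/

theorem crosses_iff {n : ℕ} {a b c d : Fin n} (hab : a < b) (hcd : c < d) :
    Crosses s(a, b) s(c, d) ↔ (a < c ∧ c < b ∧ b < d) ∨ (c < a ∧ a < d ∧ d < b) := by
  constructor
  · rintro ⟨p, q, r, s, h1, h2, h3, ⟨e1, e2⟩ | ⟨e1, e2⟩⟩
    · rw [Sym2.eq_iff] at e1 e2
      rcases e1 with ⟨rfl, rfl⟩ | ⟨rfl, rfl⟩ <;> rcases e2 with ⟨rfl, rfl⟩ | ⟨rfl, rfl⟩ <;>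
        simp only [Fin.lt_def] at * <;> omega
    · rw [Sym2.eq_iff] at e1 e2
      rcases e1 with ⟨rfl, rfl⟩ | ⟨rfl, rfl⟩ <;> rcases e2 with ⟨rfl, rfl⟩ | ⟨rfl, rfl⟩ <;>
        simp only [Fin.lt_def] at * <;> omega
  · rintro (⟨h1, h2, h3⟩ | ⟨h1, h2, h3⟩)
    · exact ⟨a, c, b, d, h1, h2, h3, Or.inl ⟨rfl, rfl⟩⟩
    · exact ⟨c, a, d, b, h1, h2, h3, Or.inr ⟨rfl, rfl⟩⟩

theorem exists_lt {n : ℕ} (s : Sym2 (Fin n)) (hs : ¬ s.IsDiag) :
    ∃ a b : Fin n, a < b ∧ s = s(a, b) := by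
  induction s using Sym2.ind with
  | _ x y =>
    rcases lt_trichotomy x y with h | h | h
    · exact ⟨x, y, h, rfl⟩
    · exact absurd h (by simpa using hs)
    · exact ⟨y, x, h, Sym2.eq_swap⟩

/-- An edge crossing `s(a,b)` has one endpoint strictly inside and the other strictly outside. -/
theorem cross_inside {n : ℕ} {a b : Fin n} (hab : a < b) {e : Sym2 (Fin n)}
    (h : Crosses e s(a, b)) : ∃ x y : Fin n, x ∈ e ∧ y ∈ e ∧ (a < x ∧ x < b) ∧
      (y < a ∨ b < y) := by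
  obtain ⟨p, q, r, s, h1, h2, h3, ⟨e1, e2⟩ | ⟨e1, e2⟩⟩ := h
  · rw [Sym2.eq_iff] at e2
    rcases e2 with ⟨rfl, rfl⟩ | ⟨rfl, rfl⟩
    · exact ⟨r, p, by simp [e1], by simp [e1], ⟨h2, h3⟩, Or.inl h1⟩
    · exact absurd (hab.trans (h2.trans h3)) (lt_irrefl _)
  · rw [Sym2.eq_iff] at e2
    rcases e2 with ⟨rfl, rfl⟩ | ⟨rfl, rfl⟩
    · exact ⟨q, s, by simp [e1], by simp [e1], ⟨h1, h2⟩, Or.inr h3⟩
    · exact absurd (hab.trans (h1.trans h2)) (lt_irrefl _)

/-- The number of independent edges piercing `s(a,b)` is at most the number of points inside. -/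
theorem pierced_le_inside {n : ℕ} {G : SimpleGraph (Fin n)} {a b : Fin n} (hab : a < b) {m : ℕ}
    (h : PiercedBy G s(a, b) m) : m + 1 ≤ b.1 - a.1 := by
  classical
  obtain ⟨M, hM, hc, hd⟩ := h
  have hch : ∀ e : M, ∃ x : Fin n, x ∈ e.1 ∧ a < x ∧ x < b := by
    rintro ⟨e, he⟩
    obtain ⟨x, y, hx, _, h1, _⟩ := cross_inside hab (hc e he).2
    exact ⟨x, hx, h1⟩
  choose f hf using hch
  have hinj : Function.Injective f := by
    intro e e' hee
    by_contra hne
    exact hd e.1 e.2 e'.1 e'.2 (fun h => hne (Subtype.ext h)) (f e)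
      ⟨(hf e).1, by rw [hee]; exact (hf e').1⟩
  have hsub : Finset.univ.image f ⊆ Finset.Ioo a b := by
    intro x hx
    rw [Finset.mem_image] at hx
    obtain ⟨e, _, rfl⟩ := hx
    rw [Finset.mem_Ioo]
    exact (hf e).2
  have hcard := Finset.card_le_card hsub
  rw [Finset.card_image_of_injective _ hinj, Finset.card_univ, Fintype.card_coe, hM,
    Fin.card_Ioo] at hcard
  have : a.1 < b.1 := hab
  omega

/-- The number of independent edges piercing `s(a,b)` is at most the number of points outside. -/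
theorem pierced_le_outside {n : ℕ} {G : SimpleGraph (Fin n)} {a b : Fin n} (hab : a < b) {m : ℕ}
    (h : PiercedBy G s(a, b) m) : m + 1 + (b.1 - a.1) ≤ n := by
  classical
  obtain ⟨M, hM, hc, hd⟩ := h
  have hch : ∀ e : M, ∃ x : Fin n, x ∈ e.1 ∧ (x < a ∨ b < x) := by
    rintro ⟨e, he⟩
    obtain ⟨x, y, _, hy, _, h1⟩ := cross_inside hab (hc e he).2
    exact ⟨y, hy, h1⟩
  choose f hf using hch
  have hinj : Function.Injective f := by
    intro e e' hee
    by_contra hne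
    exact hd e.1 e.2 e'.1 e'.2 (fun h => hne (Subtype.ext h)) (f e)
      ⟨(hf e).1, by rw [hee]; exact (hf e').1⟩
  have hsub : Finset.univ.image f ⊆ Finset.univ \ Finset.Icc a b := by
    intro x hx
    rw [Finset.mem_image] at hx
    obtain ⟨e, _, rfl⟩ := hx
    rw [Finset.mem_sdiff, Finset.mem_Icc]
    refine ⟨Finset.mem_univ _, ?_⟩
    rintro ⟨h1, h2⟩
    rcases (hf e).2 with h | h
    · exact absurd h (not_lt.mpr h1)
    · exact absurd h (not_lt.mpr h2)
  have hcard := Finset.card_le_card hsub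
  rw [Finset.card_image_of_injective _ hinj, Finset.card_univ, Fintype.card_coe, hM,
    Finset.card_sdiff_of_subset (Finset.subset_univ _), Finset.card_univ, Fintype.card_fin,
    Fin.card_Icc] at hcard
  have : a.1 < b.1 := hab
  have := b.2
  omega

/-- The `(k+1)`-st power of the cycle on `n` vertices. -/
def G (n k : ℕ) : SimpleGraph (Fin n) where
  Adj x y := x ≠ y ∧ ((x.1 - y.1) + (y.1 - x.1) ≤ k + 1 ∨
    n ≤ (x.1 - y.1) + (y.1 - x.1) + (k + 1))
  symm := ⟨by
    rintro x y ⟨h1, h2⟩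
    exact ⟨h1.symm, by omega⟩⟩
  loopless := ⟨by
    rintro x ⟨h1, _⟩
    exact h1 rfl⟩

theorem G_matchingPlanar (n k : ℕ) : MatchingPlanar (G n k) k := by
  intro e he hp
  induction e using Sym2.ind with
  | _ x y =>
    have hadj : (G n k).Adj x y := he
    obtain ⟨hne, hd⟩ := hadj
    rcases lt_trichotomy x y with h | h | h
    · have h1 := pierced_le_inside h hp
      have h2 := pierced_le_outside h hp
      have h3 : x.1 < y.1 := h
      omega
    · exact hne h
    · rw [Sym2.eq_swap] at hp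
      have h1 := pierced_le_inside h hp
      have h2 := pierced_le_outside h hp
      have h3 : y.1 < x.1 := h
      omega

/-- Inside endpoints. -/
def pin (a b : ℕ) (k : ℕ) (x : Fin k × Bool) : ℕ :=
  if x.2 then a + (x.1.1 + 1) else b - (x.1.1 + 1)

/-- Outside endpoints. -/
def pout (n a b : ℕ) (k : ℕ) (x : Fin k × Bool) : ℕ :=
  if x.2 then (if k - x.1.1 ≤ a then a - (k - x.1.1) else a + n - (k - x.1.1))
  else (if b + (k - x.1.1) < n then b + (k - x.1.1) else b + (k - x.1.1) - n)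

theorem pierced_long {n k : ℕ} {a b : Fin n} (hab : a < b) (h1 : 2 * k + 1 ≤ b.1 - a.1)
    (h2 : b.1 - a.1 + (2 * k + 1) ≤ n) : PiercedBy (G n k) s(a, b) (2 * k) := by
  classical
  have ha := a.2
  have hb := b.2
  have hab' : a.1 < b.1 := hab
  have hp : ∀ x : Fin k × Bool, pin a.1 b.1 k x < n := by
    rintro ⟨⟨j, hj⟩, c⟩
    cases c <;> simp only [pin, if_true, Bool.false_eq_true, if_false] <;> omega
  have hq : ∀ x : Fin k × Bool, pout n a.1 b.1 k x < n := by
    rintro ⟨⟨j, hj⟩, c⟩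
    cases c <;> simp only [pout, if_true, Bool.false_eq_true, if_false] <;> split_ifs <;> omega
  set p : Fin k × Bool → Fin n := fun x => ⟨pin a.1 b.1 k x, hp x⟩ with hpdef
  set q : Fin k × Bool → Fin n := fun x => ⟨pout n a.1 b.1 k x, hq x⟩ with hqdef
  have hpin : ∀ x, a < p x ∧ p x < b := by
    rintro ⟨⟨j, hj⟩, c⟩
    simp only [hpdef, Fin.lt_def]
    cases c <;> simp only [pin, if_true, Bool.false_eq_true, if_false] <;> omega
  have hqout : ∀ x, q x < a ∨ b < q x := by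
    rintro ⟨⟨j, hj⟩, c⟩
    simp only [hqdef, Fin.lt_def]
    cases c <;> simp only [pout, if_true, Bool.false_eq_true, if_false] <;> split_ifs <;> omega
  have hpinj : Function.Injective p := by
    rintro ⟨⟨j, hj⟩, c⟩ ⟨⟨j', hj'⟩, c'⟩ hxy
    simp only [hpdef, Fin.mk.injEq] at hxy
    cases c <;> cases c' <;>
      simp only [pin, if_true, Bool.false_eq_true, if_false] at hxy <;>
      simp only [Prod.mk.injEq, Fin.mk.injEq, Bool.false_eq_true, Bool.true_eq_false, and_true,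
        and_false] <;> omega
  have hqinj : Function.Injective q := by
    rintro ⟨⟨j, hj⟩, c⟩ ⟨⟨j', hj'⟩, c'⟩ hxy
    simp only [hqdef, Fin.mk.injEq] at hxy
    cases c <;> cases c' <;>
      simp only [pout, if_true, Bool.false_eq_true, if_false] at hxy <;>
      simp only [Prod.mk.injEq, Fin.mk.injEq, Bool.false_eq_true, Bool.true_eq_false, and_true,
        and_false] <;> split_ifs at hxy <;> omega
  have hpq : ∀ x y, p x ≠ q y := by
    intro x y h
    have h3 := hpin x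
    rcases hqout y with h4 | h4
    · rw [← h] at h4; exact absurd (h3.1.trans h4) (lt_irrefl _)
    · rw [← h] at h4; exact absurd (h4.trans h3.2) (lt_irrefl _)
  have hadj : ∀ x, (G n k).Adj (p x) (q x) := by
    intro x
    refine ⟨hpq x x, ?_⟩
    rcases x with ⟨⟨j, hj⟩, c⟩
    simp only [hpdef, hqdef]
    cases c <;> simp only [pin, pout, if_true, Bool.false_eq_true, if_false] <;> split_ifs <;> omega
  have hcross : ∀ x, Crosses s(p x, q x) s(a, b) := by
    intro x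
    rcases hqout x with h4 | h4
    · exact ⟨q x, a, p x, b, h4, (hpin x).1, (hpin x).2, Or.inl ⟨Sym2.eq_swap, rfl⟩⟩
    · exact ⟨a, p x, b, q x, (hpin x).1, (hpin x).2, h4, Or.inr ⟨rfl, rfl⟩⟩
  have hinj : Function.Injective (fun x => s(p x, q x)) := by
    intro x y h
    simp only [Sym2.eq_iff] at h
    rcases h with ⟨h3, _⟩ | ⟨h3, _⟩
    · exact hpinj h3
    · exact absurd h3 (hpq x y)
  refine ⟨Finset.univ.image (fun x => s(p x, q x)), ?_, ?_, ?_⟩
  · rw [Finset.card_image_of_injective _ hinj, Finset.card_univ, Fintype.card_prod,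
      Fintype.card_fin, Fintype.card_bool, mul_comm]
  · intro e he
    rw [Finset.mem_image] at he
    obtain ⟨x, _, rfl⟩ := he
    exact ⟨hadj x, hcross x⟩
  · intro e he e' he' hne v hv
    rw [Finset.mem_image] at he he'
    obtain ⟨x, _, rfl⟩ := he
    obtain ⟨y, _, rfl⟩ := he'
    simp only [Sym2.mem_iff] at hv
    have hxy : x ≠ y := fun h => hne (by rw [h])
    obtain ⟨h3 | h3, h4 | h4⟩ := hv
    · exact hxy (hpinj (h3.symm.trans h4))
    · exact hpq x y (h3.symm.trans h4)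
    · exact hpq y x (h4.symm.trans h3)
    · exact hxy (hqinj (h3.symm.trans h4))

/-! ### Triangulations -/

theorem side_not_cross {n : ℕ} {s t : Sym2 (Fin n)} (hs : IsSide s) : ¬ Crosses s t := by
  obtain ⟨i, j, rfl, hij, hne⟩ := hs
  rintro ⟨p, q, r, u, h1, h2, h3, ⟨e1, e2⟩ | ⟨e1, e2⟩⟩
  · have hu := u.2
    rw [Sym2.eq_iff] at e1
    simp only [Fin.lt_def] at h1 h2 h3
    rcases e1 with ⟨rfl, rfl⟩ | ⟨rfl, rfl⟩ <;> omega
  · have hu := u.2
    rw [Sym2.eq_iff] at e1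
    simp only [Fin.lt_def] at h1 h2 h3
    rcases e1 with ⟨rfl, rfl⟩ | ⟨rfl, rfl⟩ <;> omega

theorem crosses_symm {n : ℕ} {s t : Sym2 (Fin n)} (h : Crosses s t) : Crosses t s := by
  obtain ⟨p, q, r, u, h1, h2, h3, ⟨e1, e2⟩ | ⟨e1, e2⟩⟩ := h
  · exact ⟨p, q, r, u, h1, h2, h3, Or.inr ⟨e2, e1⟩⟩
  · exact ⟨p, q, r, u, h1, h2, h3, Or.inl ⟨e2, e1⟩⟩

/-- The two properties of triangulations that are used. -/
theorem tri_props {n : ℕ} {T : Set (Sym2 (Fin n))} (hT : IsTriangulation T) :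
    (∀ s, IsSide s → s ∈ T) ∧ (∀ s ∈ T, ∀ t ∈ T, ¬ Crosses s t) ∧
      (∀ s : Sym2 (Fin n), ¬ s.IsDiag → (∀ t ∈ T, ¬ Crosses s t) → s ∈ T) := by
  obtain ⟨D, hD, rfl⟩ := hT
  refine ⟨fun s hs => Or.inl hs, ?_, ?_⟩
  · intro s hs t ht
    rcases hs with hs | hs
    · exact side_not_cross hs
    rcases ht with ht | ht
    · exact fun h => side_not_cross ht (crosses_symm h)
    · exact hD.prop.2 s hs t ht
  · intro s hs hc
    by_cases hside : IsSide s
    · exact Or.inl hside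
    · right
      have hself : ¬ Crosses s s := by
        rintro ⟨p, q, r, u, h1, h2, h3, ⟨e1, e2⟩ | ⟨e1, e2⟩⟩
        · rw [e1, Sym2.eq_iff] at e2
          simp only [Fin.lt_def] at h1 h2 h3
          rcases e2 with ⟨rfl, rfl⟩ | ⟨rfl, rfl⟩ <;> omega
        · rw [e1, Sym2.eq_iff] at e2
          simp only [Fin.lt_def] at h1 h2 h3
          rcases e2 with ⟨rfl, rfl⟩ | ⟨rfl, rfl⟩ <;> omega
      have hle := hD.le_of_ge (y := insert s D) ?_ (Set.subset_insert s D)
      · exact hle (Set.mem_insert s D)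
      · refine ⟨?_, ?_⟩
        · intro t ht
          rcases ht with rfl | ht
          · exact ⟨hs, hside⟩
          · exact hD.prop.1 t ht
        · intro t ht u hu
          rcases ht with rfl | ht <;> rcases hu with rfl | hu
          · exact hself
          · exact hc u (Or.inr hu)
          · exact fun h => hc t (Or.inr ht) (crosses_symm h)
          · exact hD.prop.2 t ht u hu

theorem apex {n : ℕ} {T : Set (Sym2 (Fin n))} (hT : IsTriangulation T) {a b : Fin n}
    (hab : a < b) (hmem : s(a, b) ∈ T) (hlen : 2 ≤ b.1 - a.1) :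
    ∃ c : Fin n, a < c ∧ c < b ∧ s(a, c) ∈ T ∧ s(c, b) ∈ T := by
  classical
  obtain ⟨t1, t2, t3⟩ := tri_props hT
  have hab' : a.1 < b.1 := hab
  set C := Finset.univ.filter (fun c : Fin n => a < c ∧ c < b ∧ s(a, c) ∈ T) with hC
  have hne : C.Nonempty := by
    refine ⟨⟨a.1 + 1, by omega⟩, ?_⟩
    rw [hC, Finset.mem_filter]
    refine ⟨Finset.mem_univ _, ?_, ?_, ?_⟩
    · rw [Fin.lt_def]; exact Nat.lt_succ_self _
    · rw [Fin.lt_def]; show a.1 + 1 < b.1; omega
    · apply t1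
      refine ⟨a, ⟨a.1 + 1, by omega⟩, rfl, Or.inl rfl, ?_⟩
      intro h
      have := congrArg Fin.val h
      simp at this
  set c := C.max' hne with hc
  have hcC : c ∈ C := C.max'_mem hne
  rw [hC, Finset.mem_filter] at hcC
  obtain ⟨_, hac, hcb, hacT⟩ := hcC
  refine ⟨c, hac, hcb, hacT, ?_⟩
  apply t3
  · intro h
    have h' : c = b := by simpa using h
    exact absurd h' (ne_of_lt hcb)
  · rintro t ht ⟨p, q, r, u, h1, h2, h3, ⟨e1, e2⟩ | ⟨e1, e2⟩⟩
    · rw [Sym2.eq_iff] at e1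
      rcases e1 with ⟨rfl, rfl⟩ | ⟨e3, e4⟩
      · -- `c < q < b < u`
        apply t2 _ hmem _ ht
        exact ⟨a, q, b, u, hac.trans h1, h2, h3, Or.inl ⟨rfl, e2⟩⟩
      · rw [e3, e4] at hcb
        exact absurd (hcb.trans (h1.trans h2)) (lt_irrefl _)
    · rw [Sym2.eq_iff] at e1
      rcases e1 with ⟨e3, e4⟩ | ⟨e3, e4⟩
      · -- `p < c < r < b`
        rw [← e3] at h1 h2
        rw [← e4] at h3
        rcases lt_trichotomy p a with h4 | h4 | h4
        · apply t2 _ hmem _ ht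
          exact ⟨p, a, r, b, h4, hac.trans h2, h3, Or.inr ⟨rfl, e2⟩⟩
        · rw [h4] at e2
          have hr : r ∈ C := by
            rw [hC, Finset.mem_filter]
            exact ⟨Finset.mem_univ _, hac.trans h2, h3, by rw [← e2]; exact ht⟩
          have := C.le_max' r hr
          exact absurd (lt_of_lt_of_le h2 this) (lt_irrefl _)
        · apply t2 _ hacT _ ht
          exact ⟨a, p, c, r, h4, h1, h2, Or.inl ⟨rfl, e2⟩⟩
      · rw [e3, e4] at hcb
        exact absurd (hcb.trans (h2.trans h3)) (lt_irrefl _)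

theorem pierced_mono {n : ℕ} {G : SimpleGraph (Fin n)} {t : Sym2 (Fin n)} {m m' : ℕ}
    (h : PiercedBy G t m) (hm : m' ≤ m) : PiercedBy G t m' := by
  obtain ⟨M, hM, hc, hd⟩ := h
  obtain ⟨M', hM', hcard⟩ := Finset.exists_subset_card_eq (s := M) (n := m') (by omega)
  exact ⟨M', hcard, fun e he => hc e (hM' he), fun e he e' he' => hd e (hM' he) e' (hM' he')⟩

theorem long_segment {k : ℕ} (hk : 1 ≤ k) {T : Set (Sym2 (Fin (6 * k + 1)))}
    (hT : IsTriangulation T) : ∃ t ∈ T, PiercedBy (G (6 * k + 1) k) t (2 * k) := by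
  classical
  obtain ⟨t1, t2, t3⟩ := tri_props hT
  have hex : ∃ d : ℕ, ∃ a b : Fin (6 * k + 1), a < b ∧ s(a, b) ∈ T ∧ b.1 - a.1 = d ∧
      6 * k + 1 ≤ d + 2 * k := by
    refine ⟨6 * k, ⟨0, by omega⟩, ⟨6 * k, by omega⟩, ?_, ?_, ?_, by omega⟩
    · rw [Fin.lt_def]; show 0 < 6 * k; omega
    · apply t1
      refine ⟨⟨0, by omega⟩, ⟨6 * k, by omega⟩, rfl, Or.inr ⟨rfl, rfl⟩, ?_⟩
      intro h
      have := congrArg Fin.val h
      simp only at this
      omega
    · show 6 * k - 0 = 6 * k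
      omega
  obtain ⟨a, b, hab, habT, hd, hlong⟩ := Nat.find_spec hex
  have hmin : ∀ a' b' : Fin (6 * k + 1), a' < b' → s(a', b') ∈ T → b'.1 - a'.1 < Nat.find hex →
      ¬ 6 * k + 1 ≤ b'.1 - a'.1 + 2 * k := by
    intro a' b' h1 h2 h3 h4
    exact Nat.find_min hex h3 ⟨a', b', h1, h2, rfl, h4⟩
  obtain ⟨c, hac, hcb, hacT, hcbT⟩ := apex hT hab habT (by omega)
  have hab' : a.1 < b.1 := hab
  have hac' : a.1 < c.1 := hac
  have hcb' : c.1 < b.1 := hcb
  have m1 := hmin a c hac hacT (by omega)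
  have m2 := hmin c b hcb hcbT (by omega)
  by_cases hl : 2 * k + 1 ≤ c.1 - a.1
  · exact ⟨s(a, c), hacT, pierced_long hac hl (by omega)⟩
  · exact ⟨s(c, b), hcbT, pierced_long hcb (by omega) (by omega)⟩

/-- For every `k ≥ 1` there is a graph with a circular `k`-matching-planar drawing such that every
triangulation of the outer cycle has a segment pierced by `k + 1` (indeed by `2k`) pairwise
independent edges. -/
theorem result : ∀ k : ℕ, 1 ≤ k → ∃ n : ℕ, 3 ≤ n ∧ ∃ G : SimpleGraph (Fin n),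
    MatchingPlanar G k ∧ ∀ T : Set (Sym2 (Fin n)), IsTriangulation T →
      ∃ t ∈ T, PiercedBy G t (k + 1) ∧ PiercedBy G t (2 * k) := by
  intro k hk
  refine ⟨6 * k + 1, by omega, G (6 * k + 1) k, G_matchingPlanar _ _, ?_⟩
  intro T hT
  obtain ⟨t, ht, hp⟩ := long_segment hk hT
  exact ⟨t, ht, pierced_mono hp (by omega), hp⟩

end Pool.Agent.Results.MP_755a2c_co.CyclePowers
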